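import Mathlib

/-! Entropy inequalities for symmetric stochastic matrices (MP_1e9518_pr) -/

set_option autoImplicit false

open Finset

namespace Pool.Agent.H337R3.Ent

variable {V : Type} [Fintype V] [DecidableEq V]

/-- relative entropy with respect to the uniform distribution -/
noncomputable def Ent (μ : V → ℝ) : ℝ :=
  ∑ y, μ y * Real.log (μ y / (1 / (Fintype.card V : ℝ)))

/-- stochastic symmetric matrices -/
structure Good (P : Matrix V V ℝ) : Prop where
  symm : ∀ x y, P x y = P y x
  nonneg : ∀ x y, 0 ≤ P x y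
  row : ∀ x, ∑ y, P x y = 1

theorem Good.one : Good (1 : Matrix V V ℝ) where
  symm x y := by
    rw [Matrix.one_apply, Matrix.one_apply]
    simp only [eq_comm]
  nonneg x y := by
    rw [Matrix.one_apply]
    split_ifs <;> norm_num
  row x := by simp [Matrix.one_apply]

theorem Good.pow {P : Matrix V V ℝ} (h : Good P) (t : ℕ) : Good (P ^ t) := by
  have hT : P.transpose = P := by
    ext x y
    exact h.symm y x
  induction t with
  | zero =>
    rw [pow_zero]
    exact Good.one
  | succ t ih =>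
    refine ⟨fun x y => ?_, fun x y => ?_, fun x => ?_⟩
    · have e : (P ^ (t + 1)).transpose = P ^ (t + 1) := by
        rw [Matrix.transpose_pow, hT]
      exact congrFun (congrFun e y) x
    · rw [pow_succ, Matrix.mul_apply]
      exact sum_nonneg fun z _ => mul_nonneg (ih.nonneg _ _) (h.nonneg _ _)
    · simp only [pow_succ, Matrix.mul_apply]
      rw [sum_comm]
      simp only [← mul_sum, h.row, mul_one, ih.row]

section

variable (hN : 0 < (Fintype.card V : ℝ))
include hN

theorem ent_eq (μ : V → ℝ) : Ent μ = (1 / (Fintype.card V : ℝ)) *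
    ∑ y, ((Fintype.card V : ℝ) * μ y) * Real.log ((Fintype.card V : ℝ) * μ y) := by
  unfold Ent
  rw [mul_sum]
  refine sum_congr rfl fun y _ => ?_
  have e : μ y / (1 / (Fintype.card V : ℝ)) = (Fintype.card V : ℝ) * μ y := by
    field_simp
  rw [e]
  field_simp

theorem jensen {ι : Type} [Fintype ι] (w : ι → ℝ) (μ : ι → V → ℝ) (hw : ∀ i, 0 ≤ w i)
    (hs : ∑ i, w i = 1) (hμ : ∀ i y, 0 ≤ μ i y) :
    Ent (fun y => ∑ i, w i * μ i y) ≤ ∑ i, w i * Ent (μ i) := by
  simp only [ent_eq hN]
  have h1 : ∀ y, ((Fintype.card V : ℝ) * ∑ i, w i * μ i y) *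
      Real.log ((Fintype.card V : ℝ) * ∑ i, w i * μ i y) ≤
      ∑ i, w i * (((Fintype.card V : ℝ) * μ i y) * Real.log ((Fintype.card V : ℝ) * μ i y)) := by
    intro y
    have h := Real.convexOn_mul_log.map_sum_le (t := univ) (w := w)
      (p := fun i => (Fintype.card V : ℝ) * μ i y) (fun i _ => hw i) hs
      (fun i _ => mul_nonneg hN.le (hμ i y))
    simp only [smul_eq_mul] at h
    have e : ∑ i, w i * ((Fintype.card V : ℝ) * μ i y) = (Fintype.card V : ℝ) * ∑ i, w i * μ i y := by
      rw [mul_sum]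
      exact sum_congr rfl fun i _ => by ring
    rw [e] at h
    exact h
  calc (1 / (Fintype.card V : ℝ)) * ∑ y, ((Fintype.card V : ℝ) * ∑ i, w i * μ i y) *
        Real.log ((Fintype.card V : ℝ) * ∑ i, w i * μ i y)
      ≤ (1 / (Fintype.card V : ℝ)) * ∑ y, ∑ i, w i * (((Fintype.card V : ℝ) * μ i y) *
          Real.log ((Fintype.card V : ℝ) * μ i y)) :=
        mul_le_mul_of_nonneg_left (sum_le_sum fun y _ => h1 y) (by positivity)
    _ = _ := by
      rw [sum_comm, mul_sum]
      refine sum_congr rfl fun i _ => ?_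
      rw [← mul_sum]
      ring

/-- entropy is at most the chi square distance -/
theorem ent_le_chi (μ : V → ℝ) (hμ : ∀ y, 0 ≤ μ y) (hs : ∑ y, μ y = 1) :
    Ent μ ≤ (Fintype.card V : ℝ) * ∑ y, (μ y - 1 / (Fintype.card V : ℝ)) ^ 2 := by
  rw [ent_eq hN]
  set N : ℝ := (Fintype.card V : ℝ) with hNd
  have h1 : ∀ y, (N * μ y) * Real.log (N * μ y) ≤ (N * μ y) * (N * μ y - 1) := by
    intro y
    rcases (mul_nonneg hN.le (hμ y)).eq_or_lt with h | h
    · rw [← h]
      simp
    · exact mul_le_mul_of_nonneg_left (Real.log_le_sub_one_of_pos h) h.le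
  have h2 : ∑ y, (N * μ y) * (N * μ y - 1) = N ^ 2 * ∑ y, (μ y - 1 / N) ^ 2 := by
    have e1 : ∀ y, (N * μ y) * (N * μ y - 1) = N ^ 2 * (μ y - 1 / N) ^ 2 + (N * μ y - 1) := by
      intro y
      field_simp
      ring
    have e2 : ∑ y, (N * μ y - 1) = 0 := by
      rw [sum_sub_distrib, ← mul_sum, hs, sum_const, card_univ, nsmul_eq_mul, ← hNd]
      ring
    rw [sum_congr rfl fun y _ => e1 y, sum_add_distrib, e2, ← mul_sum, add_zero]
  calc (1 / N) * ∑ y, (N * μ y) * Real.log (N * μ y)
      ≤ (1 / N) * ∑ y, (N * μ y) * (N * μ y - 1) :=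
        mul_le_mul_of_nonneg_left (sum_le_sum fun y _ => h1 y) (by positivity)
    _ = N * ∑ y, (μ y - 1 / N) ^ 2 := by
      rw [h2]
      field_simp

theorem ent_nonneg (μ : V → ℝ) (hμ : ∀ y, 0 ≤ μ y) (hs : ∑ y, μ y = 1) : 0 ≤ Ent μ := by
  rw [ent_eq hN]
  set N : ℝ := (Fintype.card V : ℝ) with hNd
  have h1 : ∀ y, N * μ y - 1 ≤ (N * μ y) * Real.log (N * μ y) := by
    intro y
    exact Real.self_sub_one_le_mul_log (mul_nonneg hN.le (hμ y))
  have e2 : ∑ y, (N * μ y - 1) = 0 := by
    rw [sum_sub_distrib, ← mul_sum, hs, sum_const, card_univ, nsmul_eq_mul, ← hNd]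
    ring
  have := sum_le_sum fun y (_ : y ∈ univ) => h1 y
  rw [e2] at this
  exact mul_nonneg (by positivity) this

/-- contraction of mean zero functions -/
def Contr (P : Matrix V V ℝ) (lam : ℝ) : Prop := ∀ f : V → ℝ, ∑ x, f x = 0 →
  ∑ y, (∑ x, f x * P x y) ^ 2 ≤ lam ^ 2 * ∑ x, f x ^ 2

omit hN in
theorem col {P : Matrix V V ℝ} (hP : Good P) (y : V) : ∑ x, P x y = 1 := by
  rw [← hP.row y]
  exact sum_congr rfl fun x _ => hP.symm x y

omit hN in
theorem contr_pow {P : Matrix V V ℝ} (hP : Good P) {lam : ℝ} (hc : Contr P lam) (k : ℕ)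
    (f : V → ℝ) (hf : ∑ x, f x = 0) :
    ∑ y, (∑ x, f x * (P ^ k) x y) ^ 2 ≤ (lam ^ k) ^ 2 * ∑ x, f x ^ 2 := by
  induction k with
  | zero => simp [Matrix.one_apply]
  | succ k ih =>
    have e : ∀ y, ∑ x, f x * (P ^ (k + 1)) x y = ∑ z, (∑ x, f x * (P ^ k) x z) * P z y := by
      intro y
      simp only [pow_succ, Matrix.mul_apply, mul_sum, sum_mul]
      rw [sum_comm]
      exact sum_congr rfl fun x _ => sum_congr rfl fun z _ => by ring
    have h0 : ∑ z, ∑ x, f x * (P ^ k) x z = 0 := by
      rw [sum_comm]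
      simp only [← mul_sum, (hP.pow k).row, mul_one, hf]
    have h1 := hc _ h0
    simp only [e]
    calc _ ≤ lam ^ 2 * ∑ z, (∑ x, f x * (P ^ k) x z) ^ 2 := h1
      _ ≤ lam ^ 2 * ((lam ^ k) ^ 2 * ∑ x, f x ^ 2) :=
        mul_le_mul_of_nonneg_left ih (sq_nonneg _)
      _ = _ := by ring

theorem main {P : Matrix V V ℝ} (hP : Good P) {lam : ℝ} (hc : Contr P lam) (r : V → ℝ)
    (hr : ∀ z, 0 ≤ r z) (hs : ∑ z, r z = 1) (k : ℕ) (D M : ℝ) (hM : 0 < M)
    (hD : ∀ z, Ent ((P ^ k) z) ≤ D) :
    Ent (fun y => ∑ z, r z * (P ^ k) z y) ≤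
      (∑ z, if (Fintype.card V : ℝ) * r z ≤ M then 0 else r z) * D + M * (lam ^ k) ^ 2 := by
  set N : ℝ := (Fintype.card V : ℝ) with hNd
  set K : Matrix V V ℝ := P ^ k with hK
  have hKg : Good K := hP.pow k
  set g : V → ℝ := fun z => if N * r z ≤ M then r z else 0 with hg
  set h : V → ℝ := fun z => if N * r z ≤ M then 0 else r z with hh
  have hgh : ∀ z, g z + h z = r z := by
    intro z
    simp only [hg, hh]
    split_ifs <;> ring
  have hg0 : ∀ z, 0 ≤ g z := fun z => by
    simp only [hg]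
    split_ifs
    · exact hr z
    · exact le_rfl
  have hh0 : ∀ z, 0 ≤ h z := fun z => by
    simp only [hh]
    split_ifs
    · exact le_rfl
    · exact hr z
  have hgM : ∀ z, g z ≤ M / N := fun z => by
    simp only [hg]
    split_ifs with hz
    · rw [le_div_iff₀ hN, mul_comm]
      exact hz
    · positivity
  set q : ℝ := ∑ z, g z with hq
  have hq0 : 0 ≤ q := sum_nonneg fun z _ => hg0 z
  have hqp : q + ∑ z, h z = 1 := by
    rw [hq, ← sum_add_distrib, ← hs]
    exact sum_congr rfl fun z _ => hgh z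
  let w : Option V → ℝ := fun o => o.elim q h
  let μ : Option V → V → ℝ := fun o => o.elim (fun y => (∑ z, g z * K z y) / q) (fun z => K z)
  have hj := jensen hN w μ
    (by
      rintro (_ | z)
      · exact hq0
      · exact hh0 z)
    (by
      rw [Fintype.sum_option]
      exact hqp)
    (by
      rintro (_ | z) y
      · exact div_nonneg (sum_nonneg fun z _ => mul_nonneg (hg0 z) (hKg.nonneg _ _)) hq0
      · exact hKg.nonneg _ _)
  have e1 : (fun y => ∑ i, w i * μ i y) = fun y => ∑ z, r z * K z y := by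
    funext y
    rw [Fintype.sum_option]
    change q * ((∑ z, g z * K z y) / q) + ∑ z, h z * K z y = _
    have e2 : q * ((∑ z, g z * K z y) / q) = ∑ z, g z * K z y := by
      rcases hq0.eq_or_lt with h0 | h0
      · have h3 : ∀ z, g z = 0 := fun z =>
          (sum_eq_zero_iff_of_nonneg fun z _ => hg0 z).1 (hq.symm.trans h0.symm) z (mem_univ z)
        simp [h3]
      · field_simp
    rw [e2, ← sum_add_distrib]
    exact sum_congr rfl fun z _ => by rw [← hgh z]; ring
  rw [e1, Fintype.sum_option] at hj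
  refine hj.trans ?_
  change q * Ent (fun y => (∑ z, g z * K z y) / q) + ∑ z, h z * Ent (K z) ≤ _
  have h1 : ∑ z, h z * Ent (K z) ≤ (∑ z, h z) * D := by
    rw [sum_mul]
    exact sum_le_sum fun z _ => mul_le_mul_of_nonneg_left (hD z) (hh0 z)
  have h2 : q * Ent (fun y => (∑ z, g z * K z y) / q) ≤ M * (lam ^ k) ^ 2 := by
    rcases hq0.eq_or_lt with h0 | h0
    · rw [← h0, zero_mul]
      positivity
    · have hs1 : ∑ y, (∑ z, g z * K z y) / q = 1 := by
        rw [← sum_div, sum_comm]
        simp only [← mul_sum, hKg.row, mul_one]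
        exact div_self h0.ne'
      have hch := ent_le_chi hN (fun y => (∑ z, g z * K z y) / q)
        (fun y => div_nonneg (sum_nonneg fun z _ => mul_nonneg (hg0 z) (hKg.nonneg _ _)) hq0) hs1
      have e3 : ∀ y, (∑ z, g z * K z y) / q - 1 / N = ∑ z, (g z / q - 1 / N) * K z y := by
        intro y
        simp only [sub_mul, sum_sub_distrib, ← mul_sum, col hKg, mul_one]
        congr 1
        rw [sum_div]
        exact sum_congr rfl fun z _ => by ring
      have hz0 : ∑ z, (g z / q - 1 / N) = 0 := by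
        rw [sum_sub_distrib, ← sum_div, ← hq, div_self h0.ne', sum_const, card_univ, nsmul_eq_mul,
          ← hNd]
        field_simp
        ring
      have h3 := contr_pow hP hc k _ hz0
      have h4 : ∑ z, (g z / q - 1 / N) ^ 2 ≤ M / (N * q) := by
        have e4 : ∀ z, (g z / q - 1 / N) ^ 2 = (g z / q) ^ 2 - (2 / N) * (g z / q) + (1 / N) ^ 2 := by
          intro z
          ring
        have e5 : ∑ z, (g z / q - 1 / N) ^ 2 = ∑ z, (g z / q) ^ 2 - 1 / N := by
          rw [sum_congr rfl fun z _ => e4 z, sum_add_distrib, sum_sub_distrib, ← mul_sum,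
            ← sum_div, ← hq, div_self h0.ne', sum_const, card_univ, nsmul_eq_mul, ← hNd]
          field_simp
          ring
        have e6 : ∑ z, (g z / q) ^ 2 ≤ M / (N * q) := by
          calc ∑ z, (g z / q) ^ 2 ≤ ∑ z, (M / N) / q ^ 2 * g z := by
                refine sum_le_sum fun z _ => ?_
                rw [div_pow, div_mul_eq_mul_div]
                refine div_le_div_of_nonneg_right ?_ (by positivity)
                rw [sq]
                exact mul_le_mul_of_nonneg_right (hgM z) (hg0 z)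
            _ = M / (N * q) := by
              rw [← mul_sum, ← hq]
              field_simp
        have : 0 < 1 / N := by positivity
        linarith
      have e7 : ∑ y, ((∑ z, g z * K z y) / q - 1 / N) ^ 2 =
          ∑ y, (∑ z, (g z / q - 1 / N) * K z y) ^ 2 := sum_congr rfl fun y _ => by rw [e3]
      change _ ≤ N * ∑ y, ((∑ z, g z * K z y) / q - 1 / N) ^ 2 at hch
      rw [e7] at hch
      calc q * Ent (fun y => (∑ z, g z * K z y) / q)
          ≤ q * (N * ((lam ^ k) ^ 2 * (M / (N * q)))) := by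
            refine mul_le_mul_of_nonneg_left (hch.trans ?_) hq0
            refine mul_le_mul_of_nonneg_left (h3.trans ?_) hN.le
            exact mul_le_mul_of_nonneg_left h4 (sq_nonneg _)
        _ = M * (lam ^ k) ^ 2 := by
            field_simp
  linarith

/-- the mass of high density is controlled by the entropy -/
theorem mass_ent (r : V → ℝ) (hr : ∀ z, 0 ≤ r z) (hs : ∑ z, r z = 1) (M : ℝ) (hM : 1 < M) :
    (∑ z, if (Fintype.card V : ℝ) * r z ≤ M then 0 else r z) * Real.log M ≤ Ent r + 1 := by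
  rw [ent_eq hN]
  set N : ℝ := (Fintype.card V : ℝ) with hNd
  have h1 : ∀ z, (if N * r z ≤ M then 0 else r z) * Real.log M ≤
      (1 / N) * ((N * r z) * Real.log (N * r z)) + 1 / N := by
    intro z
    have h2 := Real.self_sub_one_le_mul_log (mul_nonneg hN.le (hr z))
    split_ifs with hz
    · rw [zero_mul, ← mul_add_one]
      have : 0 ≤ (N * r z) * Real.log (N * r z) + 1 := by
        have := mul_nonneg hN.le (hr z)
        linarith
      positivity
    · push Not at hz
      have h3 : Real.log M ≤ Real.log (N * r z) := Real.log_le_log (by linarith) hz.le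
      have h4 : (1 / N) * ((N * r z) * Real.log (N * r z)) = r z * Real.log (N * r z) := by
        field_simp
      rw [h4]
      have h5 := mul_le_mul_of_nonneg_left h3 (hr z)
      have : 0 < 1 / N := by positivity
      linarith
  rw [sum_mul]
  refine (sum_le_sum fun z _ => h1 z).trans (le_of_eq ?_)
  rw [sum_add_distrib, ← mul_sum, sum_const, card_univ, nsmul_eq_mul, ← hNd]
  field_simp

/-- the mass of density above 2 is controlled by total variation -/
theorem mass_tv (r : V → ℝ) (hr : ∀ z, 0 ≤ r z) (hs : ∑ z, r z = 1) :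
    (∑ z, if (Fintype.card V : ℝ) * r z ≤ 2 then 0 else r z) ≤
      2 * ((1 / 2 : ℝ) * ∑ z, |r z - 1 / (Fintype.card V : ℝ)|) := by
  set N : ℝ := (Fintype.card V : ℝ) with hNd
  have h1 : ∀ z, (if N * r z ≤ 2 then 0 else r z) ≤ |r z - 1 / N| + (r z - 1 / N) := by
    intro z
    split_ifs with hz
    · have := neg_abs_le (r z - 1 / N)
      linarith
    · push Not at hz
      have h2 : 2 / N < r z := by
        rw [div_lt_iff₀ hN, mul_comm]
        exact hz
      have h3 : 2 / N = 1 / N + 1 / N := by ring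
      have h4 := le_abs_self (r z - 1 / N)
      have : 0 < 1 / N := by positivity
      linarith
  have h2 : ∑ z, (r z - 1 / N) = 0 := by
    rw [sum_sub_distrib, hs, sum_const, card_univ, nsmul_eq_mul, ← hNd]
    field_simp
    ring
  have h3 := sum_le_sum fun z (_ : z ∈ univ) => h1 z
  rw [sum_add_distrib, h2, add_zero] at h3
  linarith

/-- total variation is controlled by the entropy -/
theorem tv_ent (r : V → ℝ) (hr : ∀ z, 0 ≤ r z) (hs : ∑ z, r z = 1) :
    (1 / 2 : ℝ) * ∑ z, |r z - 1 / (Fintype.card V : ℝ)| ≤ 2 * Ent r + 1 / 8 := by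
  rw [ent_eq hN]
  set N : ℝ := (Fintype.card V : ℝ) with hNd
  have key : ∀ v : ℝ, 0 ≤ v → |v - 1| ≤ 4 * (v * Real.log v - v + 1) + (v + 1) / 8 := by
    intro v hv
    set s := Real.sqrt v with hs'
    have hs0 : 0 ≤ s := Real.sqrt_nonneg v
    have hsv : s ^ 2 = v := Real.sq_sqrt hv
    have h1 : (s - 1) ^ 2 ≤ v * Real.log v - v + 1 := by
      rcases hs0.eq_or_lt with h0 | h0
      · have : v = 0 := by rw [← hsv, ← h0]; norm_num
        rw [← h0, this]
        norm_num
      · have h2 : Real.log v = 2 * Real.log s := by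
          rw [← hsv, Real.log_pow]
          norm_num
        have h3 := Real.one_sub_inv_le_log_of_pos h0
        rw [h2, ← hsv]
        have h4 : s ^ 2 * (2 * (1 - s⁻¹)) ≤ s ^ 2 * (2 * Real.log s) := by
          gcongr
        have h5 : s ^ 2 * (2 * (1 - s⁻¹)) = 2 * s ^ 2 - 2 * s := by
          field_simp
        nlinarith
    have h6 : |v - 1| = |s - 1| * (s + 1) := by
      rw [← hsv, show s ^ 2 - 1 = (s - 1) * (s + 1) by ring, abs_mul,
        abs_of_pos (by linarith : (0 : ℝ) < s + 1)]
    rw [h6]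
    have h7 : |s - 1| ^ 2 = (s - 1) ^ 2 := sq_abs _
    have h8 : |s - 1| * (s + 1) ≤ 4 * |s - 1| ^ 2 + (s + 1) ^ 2 / 16 := by
      nlinarith [sq_nonneg (8 * |s - 1| - (s + 1))]
    have h9 : (s + 1) ^ 2 ≤ 2 * (v + 1) := by
      rw [← hsv]
      nlinarith [sq_nonneg (s - 1)]
    rw [h7] at h8
    linarith
  have h1 : ∀ z, |r z - 1 / N| ≤ (1 / N) * (4 * ((N * r z) * Real.log (N * r z) - N * r z + 1) +
      (N * r z + 1) / 8) := by
    intro z
    have h2 := key (N * r z) (mul_nonneg hN.le (hr z))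
    have h3 : |r z - 1 / N| = (1 / N) * |N * r z - 1| := by
      rw [← abs_of_pos (by positivity : 0 < 1 / N), ← abs_mul, abs_of_pos (by positivity : 0 < 1 / N)]
      congr 1
      field_simp
    rw [h3]
    exact mul_le_mul_of_nonneg_left h2 (by positivity)
  have h2 := sum_le_sum fun z (_ : z ∈ univ) => h1 z
  have h3 : ∑ z, (1 / N) * (4 * ((N * r z) * Real.log (N * r z) - N * r z + 1) +
      (N * r z + 1) / 8) = 4 * ((1 / N) * ∑ z, (N * r z) * Real.log (N * r z)) + 1 / 4 := by
    have e : ∀ z, (1 / N) * (4 * ((N * r z) * Real.log (N * r z) - N * r z + 1) +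
      (N * r z + 1) / 8) = 4 * ((1 / N) * ((N * r z) * Real.log (N * r z))) +
        ((33 / 8) * (1 / N) - (31 / 8) * r z) := by
      intro z
      field_simp
      ring
    rw [sum_congr rfl fun z _ => e z, sum_add_distrib, sum_sub_distrib, ← mul_sum, ← mul_sum,
      ← mul_sum, ← mul_sum, hs, sum_const, card_univ, nsmul_eq_mul, ← hNd]
    field_simp
    ring
  rw [h3] at h2
  linarith

end

end Pool.Agent.H337R3.Ent
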