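import Pool.Agent.H337R3.Ent.Basic

/-! Spectral contraction for the lazy walk (MP_1e9518_pr) -/

set_option autoImplicit false

open Finset

namespace Pool.Agent.H337R3.Ent

variable {V : Type} [Fintype V] [DecidableEq V]

/-- Transition matrix `P = (1/2)(I + A/D)` of the lazy simple random walk on `G`. -/
noncomputable def lazyP (G : SimpleGraph V) [DecidableRel G.Adj] : Matrix V V ℝ :=
  fun x y => (if x = y then 1 / 2 else 0) + (if G.Adj x y then 1 / (2 * (G.degree x : ℝ)) else 0)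

variable (G : SimpleGraph V) [DecidableRel G.Adj] (D : ℕ)

theorem lazy_good (hD : 0 < D) (hG : ∀ x, G.degree x = D) : Good (lazyP G) where
  symm x y := by
    unfold lazyP
    rw [hG, hG]
    simp only [eq_comm, G.adj_comm]
  nonneg x y := by
    unfold lazyP
    refine add_nonneg ?_ ?_ <;> split_ifs <;> positivity
  row x := by
    unfold lazyP
    have hDr : (0 : ℝ) < D := by exact_mod_cast hD
    rw [sum_add_distrib, sum_ite_eq, if_pos (mem_univ _), ← sum_filter, sum_const, nsmul_eq_mul]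
    have e : (univ.filter fun y => G.Adj x y).card = D := by
      rw [← hG x, ← SimpleGraph.card_neighborFinset_eq_degree, SimpleGraph.neighborFinset_eq_filter]
    rw [e, hG]
    field_simp
    norm_num

theorem ite_adj_sum (D : ℕ) (hG : ∀ x, G.degree x = D) (x : V) :
    ∑ y, (if G.Adj x y then (1 : ℝ) else 0) = D := by
  rw [← sum_filter, sum_const, nsmul_eq_mul, mul_one]
  have e : (univ.filter fun y => G.Adj x y).card = D := by
    rw [← hG x, ← SimpleGraph.card_neighborFinset_eq_degree, SimpleGraph.neighborFinset_eq_filter]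
  rw [e]

/-- the two quadratic forms -/
theorem forms (hD : 0 < D) (hG : ∀ x, G.degree x = D) (f : V → ℝ) (σ : ℝ) (hσ : σ ^ 2 = 1) :
    ∑ x, ∑ y, (if G.Adj x y then (1 : ℝ) else 0) * (f x + σ * f y) ^ 2 =
      2 * D * ∑ x, f x ^ 2 + 2 * σ * ∑ x, ∑ y, (if G.Adj x y then (1 : ℝ) else 0) * (f x * f y) := by
  have e1 : ∀ x y, (if G.Adj x y then (1 : ℝ) else 0) * (f x + σ * f y) ^ 2 =
      (if G.Adj x y then (1 : ℝ) else 0) * f x ^ 2 + (if G.Adj x y then (1 : ℝ) else 0) * f y ^ 2 +
        2 * σ * ((if G.Adj x y then (1 : ℝ) else 0) * (f x * f y)) := by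
    intro x y
    have : (f x + σ * f y) ^ 2 = f x ^ 2 + f y ^ 2 + 2 * σ * (f x * f y) := by
      have : (f x + σ * f y) ^ 2 = f x ^ 2 + σ ^ 2 * f y ^ 2 + 2 * σ * (f x * f y) := by ring
      rw [this, hσ, one_mul]
    rw [this]
    ring
  simp only [e1, sum_add_distrib, ← mul_sum]
  have e2 : ∑ x, ∑ y, (if G.Adj x y then (1 : ℝ) else 0) * f x ^ 2 = D * ∑ x, f x ^ 2 := by
    simp only [← sum_mul, ite_adj_sum G D hG]
    rw [mul_sum]
  have e3 : ∑ x, ∑ y, (if G.Adj x y then (1 : ℝ) else 0) * f y ^ 2 = D * ∑ x, f x ^ 2 := by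
    rw [sum_comm, ← e2]
    refine sum_congr rfl fun x _ => sum_congr rfl fun y _ => ?_
    simp only [G.adj_comm]
  rw [e2, e3]
  ring

theorem quad (hD : 0 < D) (hG : ∀ x, G.degree x = D) (f : V → ℝ) :
    ∑ x, f x * (lazyP G).mulVec f x = (1 / 2) * ∑ x, f x ^ 2 + (1 / (2 * (D : ℝ))) *
      ∑ x, ∑ y, (if G.Adj x y then (1 : ℝ) else 0) * (f x * f y) := by
  have e : ∀ x, (lazyP G).mulVec f x = (1 / 2) * f x + (1 / (2 * (D : ℝ))) *
      ∑ y, (if G.Adj x y then (1 : ℝ) else 0) * f y := by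
    intro x
    simp only [Matrix.mulVec, dotProduct, lazyP, add_mul, sum_add_distrib, hG, ite_mul, zero_mul,
      sum_ite_eq, mem_univ, if_true]
    congr 1
    rw [mul_sum]
    refine sum_congr rfl fun y _ => ?_
    split_ifs <;> ring
  simp only [e, mul_add, sum_add_distrib]
  congr 1
  · rw [mul_sum]
    exact sum_congr rfl fun x _ => by ring
  · rw [mul_sum]
    refine sum_congr rfl fun x _ => ?_
    rw [mul_sum, mul_sum, mul_sum]
    exact sum_congr rfl fun y _ => by ring

/-- eigenvalues are nonnegative, at most one, and eigenvalue one forces constants -/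
theorem eig (hD : 0 < D) (hG : ∀ x, G.degree x = D) (hconn : G.Connected) (f : V → ℝ) (μ : ℝ)
    (hf : (lazyP G).mulVec f = μ • f) (hf1 : 0 < ∑ x, f x ^ 2) :
    0 ≤ μ ∧ μ ≤ 1 ∧ (μ = 1 → ∀ x y, f x = f y) := by
  have hDr : (0 : ℝ) < D := by exact_mod_cast hD
  have hq := quad G D hD hG f
  rw [hf] at hq
  have e : ∑ x, f x * (μ • f) x = μ * ∑ x, f x ^ 2 := by
    rw [mul_sum]
    refine sum_congr rfl fun x _ => ?_
    simp only [Pi.smul_apply, smul_eq_mul]
    ring
  rw [e] at hq
  have hp := forms G D hD hG f 1 (by norm_num)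
  have hm := forms G D hD hG f (-1) (by norm_num)
  set S := ∑ x, f x ^ 2 with hS
  set C := ∑ x, ∑ y, (if G.Adj x y then (1 : ℝ) else 0) * (f x * f y) with hC
  have nn : ∀ σ : ℝ, ∀ x y, 0 ≤ (if G.Adj x y then (1 : ℝ) else 0) * (f x + σ * f y) ^ 2 := by
    intro σ x y
    refine mul_nonneg ?_ (sq_nonneg _)
    split_ifs <;> norm_num
  have hp0 : 0 ≤ 2 * D * S + 2 * 1 * C := by
    rw [← hp]
    exact sum_nonneg fun x _ => sum_nonneg fun y _ => nn 1 x y
  have hm0 : 0 ≤ 2 * D * S + 2 * (-1) * C := by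
    rw [← hm]
    exact sum_nonneg fun x _ => sum_nonneg fun y _ => nn (-1) x y
  have hq' : 2 * D * (μ * S) = D * S + C := by
    rw [hq]
    field_simp
  refine ⟨?_, ?_, ?_⟩
  · by_contra hneg
    push Not at hneg
    have : D * (μ * S) < 0 := mul_neg_of_pos_of_neg hDr (mul_neg_of_neg_of_pos hneg hf1)
    linarith
  · by_contra hneg
    push Not at hneg
    have h1 : S < μ * S := by nlinarith
    have : D * S < D * (μ * S) := mul_lt_mul_of_pos_left h1 hDr
    linarith
  · intro h1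
    subst h1
    have hz : ∑ x, ∑ y, (if G.Adj x y then (1 : ℝ) else 0) * (f x + (-1) * f y) ^ 2 = 0 := by
      rw [hm]
      linarith
    have hadj : ∀ x y, G.Adj x y → f x = f y := by
      intro x y hxy
      have h2 := (sum_eq_zero_iff_of_nonneg fun x _ => sum_nonneg fun y _ => nn (-1) x y).1 hz x
        (mem_univ x)
      have h3 := (sum_eq_zero_iff_of_nonneg fun y _ => nn (-1) x y).1 h2 y (mem_univ y)
      rw [if_pos hxy, one_mul] at h3
      have h4 := pow_eq_zero_iff (two_ne_zero) |>.1 h3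
      linarith
    intro x y
    obtain ⟨w⟩ := hconn.preconnected x y
    induction w with
    | nil => rfl
    | cons h _ ih => exact (hadj _ _ h).trans ih

theorem spec (hD : 0 < D) (hG : ∀ x, G.degree x = D) (hconn : G.Connected) :
    0 ≤ sSup (spectrum ℝ (lazyP G) \ {1}) ∧ sSup (spectrum ℝ (lazyP G) \ {1}) < 1 ∧
      Contr (lazyP G) (sSup (spectrum ℝ (lazyP G) \ {1})) := by
  set P := lazyP G with hP
  have hgood : Good P := lazy_good G D hD hG
  have hH : P.IsHermitian := by
    ext x y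
    simp only [Matrix.conjTranspose_apply, star_trivial]
    exact hgood.symm y x
  set lam := sSup (spectrum ℝ P \ {1}) with hlam
  let b := hH.eigenvectorBasis
  let bf : V → V → ℝ := fun i => (b i).ofLp
  have hbeig : ∀ i, P.mulVec (bf i) = hH.eigenvalues i • bf i := fun i =>
    hH.mulVec_eigenvectorBasis i
  have hbn : ∀ i, ∑ x, bf i x ^ 2 = 1 := by
    intro i
    have h1 : ‖b i‖ = 1 := b.orthonormal.1 i
    have h2 := EuclideanSpace.real_norm_sq_eq (b i)
    rw [h1, one_pow] at h2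
    exact h2.symm
  have he : ∀ i, 0 ≤ hH.eigenvalues i ∧ hH.eigenvalues i ≤ 1 ∧
      (hH.eigenvalues i = 1 → ∀ x y, bf i x = bf i y) := fun i =>
    eig G D hD hG hconn (bf i) _ (hbeig i) (by rw [hbn]; norm_num)
  have hfin : (spectrum ℝ P \ {1}).Finite := by
    rw [hH.spectrum_real_eq_range_eigenvalues]
    exact (Set.finite_range _).sdiff
  have hmem : ∀ μ ∈ spectrum ℝ P \ {1}, 0 ≤ μ ∧ μ < 1 := by
    rintro μ ⟨h1, h2⟩
    rw [hH.spectrum_real_eq_range_eigenvalues] at h1
    obtain ⟨i, rfl⟩ := h1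
    exact ⟨(he i).1, lt_of_le_of_ne (he i).2.1 h2⟩
  have hlam0 : 0 ≤ lam := Real.sSup_nonneg fun μ hμ => (hmem μ hμ).1
  have hlam1 : lam < 1 := by
    rcases (spectrum ℝ P \ {1}).eq_empty_or_nonempty with h | h
    · rw [hlam, h, Real.sSup_empty]
      norm_num
    · exact (hmem _ (h.csSup_mem hfin)).2
  refine ⟨hlam0, hlam1, fun f hf => ?_⟩
  -- the expansion
  let F : EuclideanSpace ℝ V := WithLp.toLp 2 f
  let PF : EuclideanSpace ℝ V := WithLp.toLp 2 (P.mulVec f)
  have hin : ∀ (i : V) (g : V → ℝ), inner ℝ (b i) (WithLp.toLp 2 g : EuclideanSpace ℝ V) =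
      ∑ x, bf i x * g x := by
    intro i g
    rw [PiLp.inner_apply]
    refine sum_congr rfl fun x _ => ?_
    change inner ℝ (bf i x) (g x) = _
    rw [RCLike.inner_apply]
    simp [mul_comm]
  have h1 : ∑ i, (∑ x, bf i x * P.mulVec f x) ^ 2 = ∑ x, (P.mulVec f x) ^ 2 := by
    have h2 := b.sum_sq_norm_inner_right PF
    rw [EuclideanSpace.real_norm_sq_eq] at h2
    rw [← show _ = ∑ x, (P.mulVec f x) ^ 2 from h2]
    refine sum_congr rfl fun i _ => ?_
    rw [hin, Real.norm_eq_abs, sq_abs]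
  have h3 : ∑ i, (∑ x, bf i x * f x) ^ 2 = ∑ x, f x ^ 2 := by
    have h2 := b.sum_sq_norm_inner_right F
    rw [EuclideanSpace.real_norm_sq_eq] at h2
    rw [← show _ = ∑ x, f x ^ 2 from h2]
    refine sum_congr rfl fun i _ => ?_
    rw [hin, Real.norm_eq_abs, sq_abs]
  have h4 : ∀ i, ∑ x, bf i x * P.mulVec f x = hH.eigenvalues i * ∑ x, bf i x * f x := by
    intro i
    have e1 : ∑ x, bf i x * P.mulVec f x = ∑ y, P.mulVec (bf i) y * f y := by
      simp only [Matrix.mulVec, dotProduct, mul_sum, sum_mul]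
      rw [sum_comm]
      refine sum_congr rfl fun y _ => sum_congr rfl fun x _ => ?_
      rw [hgood.symm x y]
      ring
    rw [e1, hbeig i, mul_sum]
    refine sum_congr rfl fun y _ => ?_
    simp only [Pi.smul_apply, smul_eq_mul]
    ring
  have h5 : ∀ i, (∑ x, bf i x * P.mulVec f x) ^ 2 ≤ lam ^ 2 * (∑ x, bf i x * f x) ^ 2 := by
    intro i
    rw [h4, mul_pow]
    by_cases h1 : hH.eigenvalues i = 1
    · have h6 := (he i).2.2 h1
      have h7 : ∑ x, bf i x * f x = 0 := by
        have h8 : ∀ x, bf i x * f x = bf i i * f x := fun x => by rw [h6 x i]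
        rw [sum_congr rfl fun x _ => h8 x, ← mul_sum, hf, mul_zero]
      rw [h7]
      simp
    · have h6 : hH.eigenvalues i ≤ lam := le_csSup hfin.bddAbove
        ⟨hH.eigenvalues_mem_spectrum_real i, h1⟩
      exact mul_le_mul_of_nonneg_right (pow_le_pow_left₀ (he i).1 h6 2) (sq_nonneg _)
  have h6 : ∀ y, ∑ x, f x * P x y = P.mulVec f y := by
    intro y
    simp only [Matrix.mulVec, dotProduct]
    exact sum_congr rfl fun x _ => by rw [hgood.symm x y]; ring
  simp only [h6]
  rw [← h1, ← h3, mul_sum]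
  exact sum_le_sum fun i _ => h5 i

end Pool.Agent.H337R3.Ent
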